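import Pool.Agent.TH346.CG.Fin
import Pool.Agent.TH346.CG.Four
import Pool.Agent.X60.GenTree3

set_option autoImplicit false

namespace Pool.Agent.X42.GSO

open Pool.Agent.X60.GenTree (BicliqueFree added)

/-- A relation is invariant under the action of a commutative group. -/
def Inv (A : Type) {V : Type} [Group A] [MulAction A V] (G : SimpleGraph V) : Prop :=
  ∀ (g : A) (u v : V), G.Adj u v → G.Adj (g • u) (g • v)

lemma Inv.iff {A V : Type} [Group A] [MulAction A V] {G : SimpleGraph V} (h : Inv A G)
    (g : A) (u v : V) : G.Adj (g • u) (g • v) ↔ G.Adj u v := by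
  constructor
  · intro hh
    have := h g⁻¹ _ _ hh
    simpa using this
  · exact h g u v

/-- The generating set of the Cayley graph of an orbit. -/
def gens {A V : Type} [CommGroup A] [MulAction A V] (G : SimpleGraph V) (v : V) :
    Set (Additive (A ⧸ MulAction.stabilizer A v)) :=
  {q | G.Adj v (MulAction.ofQuotientStabilizer A v (Additive.toMul q))}

/-- The Cayley graph of the quotient by the stabiliser embeds as the orbit. -/
noncomputable def emb {A V : Type} [CommGroup A] [MulAction A V] (G : SimpleGraph V)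
    (hG : Inv A G) (v : V) : SimpleGraph.addCayley (gens (A := A) G v) ↪g G where
  toFun q := MulAction.ofQuotientStabilizer A v (Additive.toMul q)
  inj' := by
    intro p q h
    have := MulAction.injective_ofQuotientStabilizer A v h
    exact Additive.toMul.injective this
  map_rel_iff' := by
    intro p q
    obtain ⟨p, rfl⟩ := Additive.ofMul.surjective p
    obtain ⟨q, rfl⟩ := Additive.ofMul.surjective q
    obtain ⟨a, rfl⟩ := QuotientGroup.mk_surjective p
    obtain ⟨b, rfl⟩ := QuotientGroup.mk_surjective q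
    rw [SimpleGraph.addCayley_adj]
    have h1 : (-(Additive.ofMul (a : A ⧸ MulAction.stabilizer A v)) +
        Additive.ofMul (b : A ⧸ MulAction.stabilizer A v) ∈ gens (A := A) G v) ↔
        G.Adj (a • v) (b • v) := by
      have : -(Additive.ofMul (a : A ⧸ MulAction.stabilizer A v)) +
        Additive.ofMul (b : A ⧸ MulAction.stabilizer A v) =
          Additive.ofMul (((a⁻¹ * b : A)) : A ⧸ MulAction.stabilizer A v) := rfl
      rw [this]
      show G.Adj v ((a⁻¹ * b) • v) ↔ _
      rw [← hG.iff a, smul_smul]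
      simp
    have h2 : (-(Additive.ofMul (b : A ⧸ MulAction.stabilizer A v)) +
        Additive.ofMul (a : A ⧸ MulAction.stabilizer A v) ∈ gens (A := A) G v) ↔
        G.Adj (a • v) (b • v) := by
      have : -(Additive.ofMul (b : A ⧸ MulAction.stabilizer A v)) +
        Additive.ofMul (a : A ⧸ MulAction.stabilizer A v) =
          Additive.ofMul (((b⁻¹ * a : A)) : A ⧸ MulAction.stabilizer A v) := rfl
      rw [this]
      show G.Adj v ((b⁻¹ * a) • v) ↔ _
      rw [← hG.iff b, smul_smul]
      simp only [mul_inv_cancel_left]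
      exact G.adj_comm _ _
    rw [h1, h2, or_self]
    show G.Adj (a • v) (b • v) ↔ _
    constructor
    · intro h
      refine ⟨?_, h⟩
      intro he
      have := Additive.ofMul.injective he
      have h3 : MulAction.ofQuotientStabilizer A v (a : A ⧸ MulAction.stabilizer A v) =
        MulAction.ofQuotientStabilizer A v (b : A ⧸ MulAction.stabilizer A v) := by rw [this]
      have h4 : a • v = b • v := h3
      rw [h4] at h
      exact G.loopless.irrefl _ h
    · exact fun h => h.2

/-- The vertices can be divided into at most `s` classes each of which induces a Cayley graph of a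
finite abelian group whose exponent divides `r` (no condition on the exponent if `r = 0`). -/
def IsCayleyUnion {V : Type} (G : SimpleGraph V) (r s : ℕ) : Prop :=
  ∃ c : V → Fin s, ∀ v : V, ∃ (Γ : Type) (_ : AddCommGroup Γ) (_ : Finite Γ) (S : Set Γ),
    (∀ x : Γ, r • x = 0) ∧ Nonempty (SimpleGraph.addCayley S ≃g G.induce {u | c u = c v})

/-- Colouring the classes one by one. -/
theorem colour_union {V : Type} (G : SimpleGraph V) {s : ℕ} (c : V → Fin s) (k : ℕ)
    (h : ∀ v, (G.induce {u | c u = c v}).Colorable k) : G.Colorable (s * k) := by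
  classical
  have h' : ∀ i : Fin s, (G.induce {u | c u = i}).Colorable k := by
    intro i
    by_cases hi : ∃ v, c v = i
    · obtain ⟨v, rfl⟩ := hi
      exact h v
    · have : IsEmpty ({u | c u = i} : Set V) := ⟨fun u => hi ⟨u.1, u.2⟩⟩
      exact SimpleGraph.Colorable.of_isEmpty _
  have col : ∀ i : Fin s, (G.induce {u | c u = i}).Coloring (Fin k) := fun i => (h' i).some
  let colour : V → Fin s × Fin k := fun u => (c u, col (c u) ⟨u, rfl⟩)
  have hvalid : ∀ {u v : V}, G.Adj u v → colour u ≠ colour v := by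
    intro u v huv he
    have h1 : c u = c v := congrArg Prod.fst he
    have h2 : col (c u) ⟨u, rfl⟩ = col (c v) ⟨v, rfl⟩ := congrArg Prod.snd he
    have h3 : ∀ (i : Fin s) (hi : c v = i), col (c v) ⟨v, rfl⟩ = col i ⟨v, hi⟩ := by
      intro i hi
      subst hi
      rfl
    rw [h3 (c u) h1.symm] at h2
    have h4 : (G.induce {w | c w = c u}).Adj ⟨u, rfl⟩ ⟨v, h1.symm⟩ := huv
    exact (col (c u)).valid h4 h2
  have hcol : G.Colorable (Fintype.card (Fin s × Fin k)) :=
    (SimpleGraph.Coloring.mk colour hvalid).colorable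
  simpa using hcol

theorem cliqueNum_embed {V W : Type} [Finite V] [Finite W] {H : SimpleGraph W} {G : SimpleGraph V}
    (f : H ↪g G) : H.cliqueNum ≤ G.cliqueNum := by
  classical
  have : Fintype V := Fintype.ofFinite V
  have : Fintype W := Fintype.ofFinite W
  obtain ⟨s, hs⟩ := H.exists_isNClique_cliqueNum
  have h1 : ¬ H.CliqueFree H.cliqueNum := fun h => h s hs
  have h2 : ¬ G.CliqueFree H.cliqueNum := fun h => h1 (h.comap ⟨f.toCopy⟩)
  unfold SimpleGraph.CliqueFree at h2
  push Not at h2
  obtain ⟨t, ht⟩ := h2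
  have h3 := ht.isClique.card_le_cliqueNum
  rwa [ht.card_eq] at h3

/-- Clique number at most three. -/
theorem gs_four {m : ℕ} (F : SimpleGraph (Fin m)) (hF : F.IsAcyclic) (s t : ℕ) : ∃ C : ℕ,
    ∀ (V : Type) [Finite V] (G G₁ : SimpleGraph V), IsCayleyUnion G₁ 0 s → G₁ ≤ G →
      BicliqueFree (G \ G₁) t → G.CliqueFree 4 → ¬ F.IsIndContained G → G.Colorable C := by
  classical
  obtain ⟨m', F', f, hF', hf⟩ := added F hF t
  obtain ⟨M, ⟨g⟩⟩ := Pool.Agent.TH283.CG.forest_cube F' hF'
  obtain ⟨C', hC'⟩ := Pool.Agent.TH346.CG.four_cube M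
  refine ⟨(Finset.range 4).sup f * (s * C'), ?_⟩
  intro V _ G G₁ hU hle hbf h4 hind
  have : Fintype V := Fintype.ofFinite V
  obtain ⟨h1, h2⟩ := hf V G G₁ hle hbf hind
  obtain ⟨c, hc⟩ := hU
  have h3 : G₁.Colorable (s * C') := by
    refine colour_union G₁ c C' fun v => ?_
    obtain ⟨Γ, _, _, S, _, ⟨e⟩⟩ := hc v
    have : Fintype Γ := Fintype.ofFinite Γ
    have h5 : (SimpleGraph.addCayley S).Colorable C' := by
      apply hC' Γ S
      · exact (h4.anti hle).comap ⟨SimpleGraph.Embedding.toCopy (e.toEmbedding.trans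
          (SimpleGraph.Embedding.induce _))⟩
      · exact ⟨fun φ => h1 ⟨g.trans (φ.trans (e.toEmbedding.trans
          (SimpleGraph.Embedding.induce _)))⟩⟩
    exact h5.of_hom e.symm.toHom
  have h6 : G.cliqueNum ≤ 3 := by
    obtain ⟨K, hK⟩ := G.exists_isNClique_cliqueNum
    by_contra hlt
    exact (h4.mono (by omega : 4 ≤ G.cliqueNum)) K hK
  rw [← SimpleGraph.chromaticNumber_le_iff_colorable]
  refine h2.trans ?_
  rw [← SimpleGraph.chromaticNumber_le_iff_colorable] at h3
  push_cast
  push_cast at h3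
  gcongr
  exact_mod_cast Finset.le_sup (Finset.mem_range.2 (by omega))

/-- Bounded exponent. -/
theorem gs_exp {m : ℕ} (F : SimpleGraph (Fin m)) (hF : F.IsAcyclic) (r s t : ℕ) (hr : 1 ≤ r) :
    ∃ f : ℕ → ℕ, ∀ (V : Type) [Finite V] (G G₁ : SimpleGraph V), IsCayleyUnion G₁ r s → G₁ ≤ G →
      BicliqueFree (G \ G₁) t → ¬ F.IsIndContained G → G.chromaticNumber ≤ f G.cliqueNum := by
  classical
  obtain ⟨m', F', f, hF', hf⟩ := added F hF t
  obtain ⟨M, ⟨g⟩⟩ := Pool.Agent.TH283.CG.forest_cube F' hF'
  obtain ⟨f', hf'⟩ := Pool.Agent.TH346.CG.exp_cube M r hr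
  refine ⟨fun k => f k * (s * (Finset.range (k + 1)).sup f'), ?_⟩
  intro V _ G G₁ hU hle hbf hind
  have : Fintype V := Fintype.ofFinite V
  obtain ⟨h1, h2⟩ := hf V G G₁ hle hbf hind
  obtain ⟨c, hc⟩ := hU
  have h3 : G₁.Colorable (s * (Finset.range (G.cliqueNum + 1)).sup f') := by
    refine colour_union G₁ c _ fun v => ?_
    obtain ⟨Γ, _, _, S, hS, ⟨e⟩⟩ := hc v
    have : Fintype Γ := Fintype.ofFinite Γ
    have h5 : (SimpleGraph.addCayley S).Colorable
        (f' (SimpleGraph.addCayley S).cliqueNum) := by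
      apply hf' Γ S hS
      exact ⟨fun φ => h1 ⟨g.trans (φ.trans (e.toEmbedding.trans
          (SimpleGraph.Embedding.induce _)))⟩⟩
    have h6 : (SimpleGraph.addCayley S).cliqueNum ≤ G.cliqueNum :=
      (cliqueNum_embed (e.toEmbedding.trans (SimpleGraph.Embedding.induce _))).trans
        (Pool.Agent.X60.GenTree.cliqueNum_mono hle)
    exact (h5.mono (Pool.Agent.X60.GenTree.le_sup_range f' h6)).of_hom e.symm.toHom
  refine h2.trans ?_
  rw [← SimpleGraph.chromaticNumber_le_iff_colorable] at h3
  push_cast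
  push_cast at h3
  gcongr

/-- Invariant graphs under a commutative group with few orbits. -/
theorem union_of_action {A V : Type} [CommGroup A] [MulAction A V] [Finite V] (G : SimpleGraph V)
    (hG : Inv A G) (r s : ℕ) (hr : ∀ g : A, g ^ r = 1)
    (hs : Nat.card (MulAction.orbitRel.Quotient A V) ≤ s) : IsCayleyUnion G r s := by
  classical
  have : Finite (MulAction.orbitRel.Quotient A V) := Quotient.finite _
  let ι : MulAction.orbitRel.Quotient A V ↪ Fin s :=
    (Finite.equivFin _).toEmbedding.trans (Fin.castLEEmb hs)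
  refine ⟨fun u => ι (Quotient.mk (MulAction.orbitRel A V) u), fun v => ?_⟩
  refine ⟨Additive (A ⧸ MulAction.stabilizer A v), inferInstance, ?_, gens G v, ?_, ⟨?_⟩⟩
  · have : Finite (A ⧸ MulAction.stabilizer A v) :=
      Finite.of_injective _ (MulAction.injective_ofQuotientStabilizer A v)
    exact Finite.of_equiv _ Additive.ofMul
  · intro x
    obtain ⟨x, rfl⟩ := Additive.ofMul.surjective x
    obtain ⟨a, rfl⟩ := QuotientGroup.mk_surjective x
    rw [← ofMul_pow, ← QuotientGroup.mk_pow, hr]
    rfl
  · have hmem : ∀ q, ι (Quotient.mk (MulAction.orbitRel A V) (emb G hG v q)) =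
        ι (Quotient.mk (MulAction.orbitRel A V) v) := by
      intro q
      obtain ⟨q, rfl⟩ := Additive.ofMul.surjective q
      obtain ⟨a, rfl⟩ := QuotientGroup.mk_surjective q
      congr 1
      apply Quotient.sound
      show MulAction.orbitRel A V (a • v) v
      rw [MulAction.orbitRel_apply]
      exact MulAction.mem_orbit v a
    refine ⟨Equiv.ofBijective (fun q => ⟨emb G hG v q, hmem q⟩) ⟨?_, ?_⟩, ?_⟩
    · intro p q h
      exact (emb G hG v).injective (congrArg Subtype.val h)
    · rintro ⟨u, hu⟩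
      have h1 : Quotient.mk (MulAction.orbitRel A V) u = Quotient.mk (MulAction.orbitRel A V) v :=
        ι.injective hu
      have h2 : MulAction.orbitRel A V u v := Quotient.exact h1
      rw [MulAction.orbitRel_apply] at h2
      obtain ⟨a, ha⟩ := MulAction.mem_orbit_iff.mp h2
      exact ⟨Additive.ofMul (a : A ⧸ MulAction.stabilizer A v), Subtype.ext ha⟩
    · intro p q
      exact (emb G hG v).map_rel_iff'

/-- Cayley graphs of groups with a commutative subgroup of bounded index. -/
theorem union_of_subgroup {Γ : Type} [Group Γ] [Finite Γ] (H : Subgroup Γ) (r s : ℕ)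
    (hcomm : ∀ a ∈ H, ∀ b ∈ H, a * b = b * a) (hr : ∀ h ∈ H, h ^ r = 1) (hs : H.index ≤ s)
    (S : Set Γ) : IsCayleyUnion (SimpleGraph.mulCayley S) r s := by
  classical
  let inst : CommGroup H := { (inferInstance : Group H) with
    mul_comm := fun a b => Subtype.ext (hcomm a.1 a.2 b.1 b.2) }
  refine union_of_action (A := H) (SimpleGraph.mulCayley S) ?_ r s ?_ ?_
  · intro g u v huv
    show (SimpleGraph.mulCayley S).Adj (g.1 * u) (g.1 * v)
    rwa [SimpleGraph.mulCayley_adj_mul_iff_right]
  · intro g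
    exact Subtype.ext (hr g.1 g.2)
  · refine le_trans (le_of_eq ?_) hs
    exact Nat.card_congr (QuotientGroup.quotientRightRelEquivQuotientLeftRel H)

end Pool.Agent.X42.GSO
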